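import Pool.Agent.helper53.ORT.Spec

set_option autoImplicit false

namespace Pool.Agent.ORT

open Module Pool.Agent.GS

theorem TRN (trc : TRC_stmt) : TRN_stmt := by
  intro F _ _ hc r hr hr2 hdv κ hκ
  obtain ⟨T₁, hT, hsq, hDr⟩ := trc hc r (Or.inr ⟨hr, hr2, hdv⟩) (-κ) (neg_ne_zero.mpr hκ)
  refine ⟨-T₁, ?_, ?_, ?_⟩
  · intro h
    have h1 : T₁ = -2 := by rw [← h, neg_neg]
    have h2 : r ∣ 2 := by
      refine hDr (-1) ?_ ?_ 2 ?_
      · rw [Matrix.det_fin_two]; simp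
      · rw [Matrix.trace_fin_two, h1]; simp; norm_num
      · rw [neg_sq, one_pow]
    exact hr2 ((Nat.prime_dvd_prime_iff_eq hr Nat.prime_two).mp h2)
  · obtain ⟨s, hs⟩ := hsq
    exact ⟨s, by rw [← hs]; ring⟩
  · intro M hdet htr j hj
    have h2 : r ∣ 2 * j := by
      refine hDr (-M) ?_ ?_ (2 * j) ?_
      · rw [Matrix.det_neg, hdet]; simp
      · rw [Matrix.trace_neg, htr, neg_neg]
      · rw [pow_mul, neg_sq, ← pow_mul, mul_comm 2 j, pow_mul, hj, one_pow]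
    exact (Nat.Coprime.dvd_mul_left ((Nat.coprime_primes hr Nat.prime_two).mpr hr2)).mp h2

end Pool.Agent.ORT
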